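import Pool.Agent.Helper8.DenseLVScheme
import Pool.Agent.Helper51.AffOpen
import Pool.Agent.Helper52.SmoothPrimes.General
import Pool.Agent.Helper83.LVB2

/-!
MP_26d9ad_nt: for every arithmetic scheme `B`, 100% of the ramified covers of (subschemes of) tori
in two-parameter families `f + a α z + b β = 0` have no `B`-integral point, uniformly in the
subscheme `W` of the torus and in `f`.

Proof.  `B` has an affine open `V` and there are a number field `K`, `N > 0` and a finitely
generated group `Γ` through which the units of `Γ(B, V)` act on the residue fields `F_r`, `r` a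
prime not dividing `N` with a homomorphism `O_K → F_r` (`Pool/Agent/Helper51`).  These primes have
positive upper relative density (`Pool/Agent/Helper83`), so there are `M` and arbitrarily many
of them, compared with `log M`, with `r - 1 ∣ M` (`Pool/Agent/Helper52`, a Brun sieve).  The
reduction of a point of `W` modulo all these primes depends only on the classes of `n` units modulo
`M`-th powers: at most `M^(gn)` possibilities.  For each of them and each `r`, at least the fraction
`1/(2m)` of all `(a, b)` modulo `r` gives a polynomial without root in `F_r`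
(`Pool/Agent/Helper8/DenseLV*.lean`).
-/

open AlgebraicGeometry CategoryTheory CategoryTheory.Limits Pool.Agent.Helper8.DenseLV

namespace Pool.Agent.Helper8.Kept.DensityOneCovers

theorem result (B : Scheme.{0}) [IsIntegral B] (s : B ⟶ Spec (.of ℤ)) [LocallyOfFiniteType s]
    [Flat s] (n m : ℕ) (ε : ℝ) (hε : 0 < ε) :
    ∃ H₀ : ℕ, ∀ H : ℕ, H₀ ≤ H → ∀ (W : Scheme.{0}) (π : W ⟶ B) (x : Fin n → Γ(W, ⊤)ˣ),
      EmbedsInTorus π x → ∀ f : Polynomial Γ(W, ⊤), f.natDegree ≤ m →
      Ideal.span {c | ∃ j, 2 ≤ j ∧ c = f.coeff j} = ⊤ → ∀ α β : Γ(W, ⊤)ˣ,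
      (({c : ℤ × ℤ | |c.1| ≤ H ∧ |c.2| ≤ H ∧ ∃ σ : B ⟶ zeroLocus W (perturb f α β c.1 c.2),
        σ ≫ zeroLocusMap W (perturb f α β c.1 c.2) ≫ π = 𝟙 B}.ncard : ℕ) : ℝ) ≤
        ε * (2 * H + 1) ^ 2 := by
  classical
  obtain ⟨V, -, hV, K, _, _, N, G, _, hG, ι, hN, hres⟩ :=
    Pool.Agent.Helper51.AffOpen.main s (Pool.Agent.Helper51.AffOpen.charZero_functionField_of_flat s)
  obtain ⟨c, hc, hdens⟩ := Pool.Agent.Helper83.LVB.splitting_primes K
  let P : Set ℕ := {r | r.Prime ∧ Nonempty (NumberField.RingOfIntegers K →+* ZMod r)}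
  refine main_of B V hV hG ι {r | r ∈ P ∧ N < r} ?_ ?_ n m ε hε
  · rintro r ⟨⟨hr, hr2⟩, hrN⟩
    exact ⟨hr, hres r hr (fun hd => absurd (Nat.le_of_dvd hN hd) (not_le.mpr hrN)) hr2⟩
  · intro C
    obtain ⟨M, T, hM, hT, hC⟩ := Pool.Agent.Helper52.SmoothPrimes.smooth_primes_sub P
      (fun r hr => hr.1) c hc hdens N C
    exact ⟨M, T, by omega, fun r hr => ⟨⟨(hT r hr).1, (hT r hr).2.1⟩, (hT r hr).2.2⟩, hC⟩

end Pool.Agent.Helper8.Kept.DensityOneCovers
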