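import Pool.Agent.Helper8.LVCore

/-!
MP_26d9ad_nt: finiteness of integral points over a base with finitely many units, when every
positive-dimensional closed subvariety of the generic fibre has a non-constant unit (or a
non-constant map to a scheme with finitely many rational points).
-/

universe u

open AlgebraicGeometry CategoryTheory CategoryTheory.Limits

namespace Pool.Agent.Results.MP_26d9ad_nt.FiniteUnitBases

theorem result (B : Scheme.{u}) [IsIntegral B] [IsNoetherian B]
    (hnormal : ∀ b : B, IsIntegrallyClosed (B.presheaf.stalk b))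
    (hunits : Finite Γ(B, ⊤)ˣ)
    (U : Scheme.{u}) (f : U ⟶ B) [IsSeparated f] [LocallyOfFiniteType f] [QuasiCompact f]
    (hsub : ∀ (Z : Scheme.{u}) (i : Z ⟶ pullback f (B.fromSpecStalk (genericPoint B))),
      IsIntegral Z → IsClosedImmersion i →
      IsIso (i ≫ pullback.snd f (B.fromSpecStalk (genericPoint B))) ∨
      (∃ w : Γ(Z, ⊤)ˣ, (w : Γ(Z, ⊤)) ∉
        Set.range (i ≫ pullback.snd f (B.fromSpecStalk (genericPoint B))).appTop) ∨
      (∃ (Y : Scheme.{u}) (g : Y ⟶ Spec (B.presheaf.stalk (genericPoint B))) (φ : Z ⟶ Y),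
        IsSeparated g ∧ φ ≫ g = i ≫ pullback.snd f (B.fromSpecStalk (genericPoint B)) ∧
        Finite {y : Spec (B.presheaf.stalk (genericPoint B)) ⟶ Y // y ≫ g = 𝟙 _} ∧
        ∀ y : Spec (B.presheaf.stalk (genericPoint B)) ⟶ Y,
          φ ≠ (i ≫ pullback.snd f (B.fromSpecStalk (genericPoint B))) ≫ y)) :
    Finite {σ : B ⟶ U // σ ≫ f = 𝟙 B} :=
  Pool.Agent.Helper8.LangVojta.main hnormal f (Or.inl hunits) hsub

end Pool.Agent.Results.MP_26d9ad_nt.FiniteUnitBases
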