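import Pool.Agent.Helper8.LVArith

/-!
MP_26d9ad_nt: persistence of finiteness of integral points from number rings to arithmetic
schemes, when every positive-dimensional closed subvariety of the generic fibre has a non-constant
unit (or a non-constant map to a scheme with finitely many rational points).
-/

open AlgebraicGeometry CategoryTheory CategoryTheory.Limits NumberField

namespace Pool.Agent.Helper8.Kept.Persistence

open Pool.Agent.Helper8

theorem result (B : Scheme.{0}) [IsIntegral B] (s : B ⟶ Spec (.of ℤ)) [LocallyOfFiniteType s]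
    [QuasiCompact s] (hchar : CharZero B.functionField)
    (U : Scheme.{0}) (f : U ⟶ B) [IsSeparated f] [LocallyOfFiniteType f] [QuasiCompact f]
    (hsub : ∀ (Z : Scheme.{0}) (i : Z ⟶ pullback f (B.fromSpecStalk (genericPoint B))),
      IsIntegral Z → IsClosedImmersion i →
      IsIso (i ≫ pullback.snd f (B.fromSpecStalk (genericPoint B))) ∨
      (∃ w : Γ(Z, ⊤)ˣ, (w : Γ(Z, ⊤)) ∉
        Set.range (i ≫ pullback.snd f (B.fromSpecStalk (genericPoint B))).appTop) ∨
      (∃ (Y : Scheme.{0}) (g : Y ⟶ Spec (B.presheaf.stalk (genericPoint B))) (φ : Z ⟶ Y),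
        IsSeparated g ∧ φ ≫ g = i ≫ pullback.snd f (B.fromSpecStalk (genericPoint B)) ∧
        Finite {y : Spec (B.presheaf.stalk (genericPoint B)) ⟶ Y // y ≫ g = 𝟙 _} ∧
        ∀ y : Spec (B.presheaf.stalk (genericPoint B)) ⟶ Y,
          φ ≠ (i ≫ pullback.snd f (B.fromSpecStalk (genericPoint B))) ≫ y))
    (hnum : ∀ (k : Type) [Field k] [NumberField k] (M : ℕ)
      (h : Spec (.of (Localization.Away ((M : ℕ) : 𝓞 k))) ⟶ B), M ≠ 0 →
      Finite {τ : Spec (.of (Localization.Away ((M : ℕ) : 𝓞 k))) ⟶ U // τ ≫ f = h}) :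
    Finite {σ : B ⟶ U // σ ≫ f = 𝟙 B} := by
  have hLN : IsLocallyNoetherian B := LocallyOfFiniteType.isLocallyNoetherian s
  have hC : CompactSpace B := (quasiCompact_iff_compactSpace s).mp inferInstance
  refine LangVojta.main_of_values f ?_ hsub
  intro Z i hi w
  exact LangVojta.values_finite_fam f (LVArith.family B s hchar U f hnum) i w

end Pool.Agent.Helper8.Kept.Persistence
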